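import Pool.Agent.V11248.Pk.Measure
import Pool.Agent.V11248.Sq.OS

/-!
# Prikry forcing with a normal measure
-/

namespace Pool.Agent.V11248.Pk

open Cardinal Set Pool.Agent.Helper669.Forcing Pool.Agent.V11248.OS

/-- Conditions of Prikry forcing; all points are taken in the set `B`. -/
structure PC {K : Type} [LinearOrder K] (U : Ultrafilter K) (B : Set K) where
  s : List K
  A : Set K
  mem : A ∈ U
  sub : A ⊆ B
  sB : ∀ x ∈ s, x ∈ B
  sorted : s.Pairwise (· < ·)
  above : ∀ x ∈ s, ∀ y ∈ A, x < y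

section

variable {κ : Cardinal.{0}} {K : Type} [LinearOrder K] {U : Ultrafilter K} {B : Set K}

instance : Preorder (PC U B) where
  le q p := ∃ r, q.s = p.s ++ r ∧ (∀ x ∈ r, x ∈ p.A) ∧ q.A ⊆ p.A
  le_refl p := ⟨[], by simp, by simp, Subset.rfl⟩
  le_trans := by
    rintro a b c ⟨r, h1, h2, h3⟩ ⟨s, h4, h5, h6⟩
    refine ⟨s ++ r, by rw [h1, h4, List.append_assoc], ?_, h3.trans h6⟩
    intro y hy
    rcases List.mem_append.1 hy with h | h
    · exact h5 y h
    · exact h6 (h2 y h)

theorem Normal.above (hN : Normal κ U) (s : List K) : {y | ∀ x ∈ s, x < y} ∈ U := by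
  induction s with
  | nil => exact Filter.univ_mem' fun y x hx => absurd hx (by simp)
  | cons a s ih =>
    refine Filter.mem_of_superset (Filter.inter_mem (hN.tail a) ih) ?_
    rintro y ⟨h1, h2⟩ x hx
    rcases List.mem_cons.1 hx with rfl | hx
    · exact h1
    · exact h2 x hx

/-- The condition with stem `s` and measure one set `A`. -/
def mk (hN : Normal κ U) (hB : B ∈ U) (s : List K) (hs : s.Pairwise (· < ·))
    (hsB : ∀ x ∈ s, x ∈ B) (A : Set K) (hA : A ∈ U) : PC U B where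
  s := s
  A := A ∩ B ∩ {y | ∀ x ∈ s, x < y}
  mem := Filter.inter_mem (Filter.inter_mem hA hB) (hN.above s)
  sub := fun _ hx => hx.1.2
  sB := hsB
  sorted := hs
  above := fun x hx y hy => hy.2 x hx

/-- shrinking the measure one set -/
theorem exists_shrink (p : PC U B) (A : Set K) (hA : A ∈ U) :
    ∃ q ≤ p, q.s = p.s ∧ q.A = p.A ∩ A :=
  ⟨⟨p.s, p.A ∩ A, Filter.inter_mem p.mem hA, inter_subset_left.trans p.sub, p.sB, p.sorted,
    fun x hx y hy => p.above x hx y hy.1⟩, ⟨[], by simp, by simp, inter_subset_left⟩, rfl, rfl⟩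

theorem compat {p q : PC U B} (h : p.s = q.s) : ∃ r ≤ p, r ≤ q ∧ r.s = p.s := by
  refine ⟨⟨p.s, p.A ∩ q.A, Filter.inter_mem p.mem q.mem, inter_subset_left.trans p.sub, p.sB,
    p.sorted, fun x hx y hy => p.above x hx y hy.1⟩, ⟨[], by simp, by simp, inter_subset_left⟩,
    ⟨[], by simp [h], by simp, inter_subset_right⟩, rfl⟩

/-- adding a point to the stem -/
theorem exists_snoc (hN : Normal κ U) (p : PC U B) {x : K} (hx : x ∈ p.A) :
    ∃ q ≤ p, q.s = p.s ++ [x] ∧ q.A = p.A ∩ {y | x < y} := by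
  refine ⟨⟨p.s ++ [x], p.A ∩ {y | x < y}, Filter.inter_mem p.mem (hN.tail x),
    inter_subset_left.trans p.sub, ?_, ?_, ?_⟩,
    ⟨[x], rfl, by simpa using hx, inter_subset_left⟩, rfl, rfl⟩
  · intro y hy
    rcases List.mem_append.1 hy with h | h
    · exact p.sB y h
    · rw [List.mem_singleton.1 h]
      exact p.sub hx
  · rw [List.pairwise_append]
    refine ⟨p.sorted, by simp, fun a ha b hb => ?_⟩
    rw [List.mem_singleton.1 hb]
    exact p.above a ha x hx
  · intro y hy z hz
    rcases List.mem_append.1 hy with h | h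
    · exact p.above y h z hz.1
    · rw [List.mem_singleton.1 h]
      exact hz.2

theorem exists_point (p : PC U B) : ∃ x, x ∈ p.A := nonempty_of_mem p.mem

theorem exists_length (hN : Normal κ U) (n : ℕ) (p : PC U B) : ∃ q ≤ p, n < q.s.length := by
  induction n with
  | zero =>
    obtain ⟨x, hx⟩ := exists_point p
    obtain ⟨q, hq, h1, _⟩ := exists_snoc hN p hx
    exact ⟨q, hq, by rw [h1]; simp⟩
  | succ n ih =>
    obtain ⟨q, hq, hn⟩ := ih
    obtain ⟨x, hx⟩ := exists_point q
    obtain ⟨r, hr, h1, _⟩ := exists_snoc hN q hx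
    exact ⟨r, hr.trans hq, by rw [h1]; simp; omega⟩

theorem get_of_le {p q : PC U B} (h : q ≤ p) {n : ℕ} {x : K} (hx : p.s[n]? = some x) :
    q.s[n]? = some x := by
  obtain ⟨r, h, -, -⟩ := h
  rw [h, List.getElem?_append_left]
  · exact hx
  · exact (List.getElem?_eq_some_iff.1 hx).1

theorem length_le {p q : PC U B} (h : q ≤ p) : p.s.length ≤ q.s.length := by
  obtain ⟨r, h, -, -⟩ := h
  rw [h, List.length_append]
  omega

theorem mem_of_le {p q : PC U B} (h : q ≤ p) : ∀ x ∈ q.s, x ∈ p.s ∨ x ∈ p.A := by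
  obtain ⟨r, h1, h2, -⟩ := h
  intro x hx
  rw [h1] at hx
  rcases List.mem_append.1 hx with h | h
  · exact Or.inl h
  · exact Or.inr (h2 x h)

theorem diagLength (hN : Normal κ U) (n : ℕ) : ∀ A : List K → Set K, (∀ s, A s ∈ U) →
      {y | ∀ s : List K, s.length = n → (∀ x ∈ s, x < y) → y ∈ A s} ∈ U := by
  induction n with
  | zero =>
    intro A hA
    refine Filter.mem_of_superset (hA []) fun y hy s hs _ => ?_
    rw [List.length_eq_zero_iff.1 hs]
    exact hy
  | succ n ih =>
    intro A hA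
    refine Filter.mem_of_superset (hN.normal _ fun x => ih (fun s => A (x :: s)) fun s => hA _) ?_
    intro y hy s hs h
    match s, hs with
    | x :: s, hs =>
      exact hy x (h x (by simp)) s (by simpa using hs) fun z hz => h z (by simp [hz])

theorem Normal.nat (hN : Normal κ U) {A : ℕ → Set K} (hA : ∀ n, A n ∈ U) :
    {y | ∀ n, y ∈ A n} ∈ U := by
  have h := hN.complete ℕ A (by rw [mk_nat]; exact hN.unc) hA
  exact Filter.mem_of_superset h fun y hy n => Set.mem_iInter.1 hy n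

/-- diagonal intersections indexed by finite sequences -/
theorem diagList (hN : Normal κ U) (A : List K → Set K) (hA : ∀ s, A s ∈ U) :
    {y | ∀ s : List K, (∀ x ∈ s, x < y) → y ∈ A s} ∈ U := by
  refine Filter.mem_of_superset (hN.nat fun n => diagLength hN n A hA) fun y hy s h => ?_
  exact hy s.length s rfl h

/-- some condition with stem `t` is in `φ` -/
def Dc (φ : Set (PC U B)) (t : List K) : Prop := ∃ p : PC U B, p.s = t ∧ p ∈ φ

theorem Dc_of_snoc (hN : Normal κ U) {φ : Set (PC U B)} (hd : Down φ) (hr : Reg φ)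
    {p : PC U B} (h : {y | Dc φ (p.s ++ [y])} ∈ U) : Dc φ p.s := by
  classical
  have h1 : ∀ y, ∃ q : PC U B, Dc φ (p.s ++ [y]) → q.s = p.s ++ [y] ∧ q ∈ φ := by
    intro y
    by_cases hy : Dc φ (p.s ++ [y])
    · obtain ⟨q, hq⟩ := hy
      exact ⟨q, fun _ => hq⟩
    · exact ⟨p, fun h => absurd h hy⟩
  choose Q hQ using h1
  have hE := hN.normal (fun y => (Q y).A) fun y => (Q y).mem
  obtain ⟨q, hq, hqs, hqA⟩ := exists_shrink p _ (Filter.inter_mem h hE)
  refine ⟨q, hqs, hr q fun r hr' => ?_⟩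
  -- make the stem of `r` longer
  obtain ⟨z, hz⟩ := exists_point r
  obtain ⟨r', hr1, hr2, hr3⟩ := exists_snoc hN r hz
  refine ⟨r', hr1, ?_⟩
  obtain ⟨l, hl1, hl2, hl3⟩ := hr1.trans hr'
  have hne : l ≠ [] := by
    rintro rfl
    have := length_le hr'
    rw [hl1] at hr2
    have h2 := congrArg List.length hr2
    simp at h2
    omega
  obtain ⟨y, l', rfl⟩ := List.exists_cons_of_ne_nil hne
  have hy : y ∈ q.A := hl2 y (by simp)
  rw [hqA] at hy
  obtain ⟨h3, h4⟩ := hQ y hy.2.1
  refine hd _ h4 _ ⟨l', ?_, ?_, ?_⟩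
  · rw [hl1, hqs, h3]
    simp
  · intro x hx
    have h5 : x ∈ q.A := hl2 x (by simp [hx])
    rw [hqA] at h5
    refine h5.2.2 y ?_
    have h6 := r'.sorted
    rw [hl1, List.pairwise_append] at h6
    exact (List.pairwise_cons.1 h6.2.1).1 x hx
  · intro x hx
    have h5 : x ∈ q.A := hl3 hx
    rw [hqA] at h5
    refine h5.2.2 y (r'.above y ?_ x hx)
    rw [hl1]
    simp

/-- The Prikry property. -/
theorem prikry (hN : Normal κ U) {φ : Set (PC U B)} (hd : Down φ) (hr : Reg φ) (p : PC U B) :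
    ∃ q ≤ p, q.s = p.s ∧ (q ∈ φ ∨ q ∈ fnot φ) := by
  classical
  by_contra hcon
  push Not at hcon
  let Un : List K → Prop := fun t => ¬ Dc φ t ∧ ¬ Dc (fnot φ) t
  have hbase : Un p.s := by
    constructor
    · rintro ⟨q, hq, hqφ⟩
      obtain ⟨r, hr1, hr2, hr3⟩ := compat (p := p) (q := q) hq.symm
      exact (hcon r hr1 hr3).1 (hd _ hqφ _ hr2)
    · rintro ⟨q, hq, hqφ⟩
      obtain ⟨r, hr1, hr2, hr3⟩ := compat (p := p) (q := q) hq.symm
      exact (hcon r hr1 hr3).2 (down_fnot φ _ hqφ _ hr2)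
  have hstep : ∀ q : PC U B, Un q.s → {y | Un (q.s ++ [y])} ∈ U := by
    intro q hq
    have h1 : {y | Dc φ (q.s ++ [y])}ᶜ ∈ U := by
      rcases Ultrafilter.mem_or_compl_mem U {y | Dc φ (q.s ++ [y])} with h | h
      · exact absurd (Dc_of_snoc hN hd hr h) hq.1
      · exact h
    have h2 : {y | Dc (fnot φ) (q.s ++ [y])}ᶜ ∈ U := by
      rcases Ultrafilter.mem_or_compl_mem U {y | Dc (fnot φ) (q.s ++ [y])} with h | h
      · exact absurd (Dc_of_snoc hN (down_fnot φ) (reg_fnot hd) h) hq.2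
      · exact h
    exact Filter.inter_mem h1 h2
  let A : List K → Set K := fun t => if ∃ q : PC U B, q.s = t ∧ Un t then {y | Un (t ++ [y])} else
    Set.univ
  have hA : ∀ t, A t ∈ U := by
    intro t
    by_cases h : ∃ q : PC U B, q.s = t ∧ Un t
    · simp only [A]
      rw [if_pos h]
      obtain ⟨q, rfl, h2⟩ := h
      exact hstep q h2
    · simp only [A]
      rw [if_neg h]
      exact Filter.univ_mem
  obtain ⟨q, hq, hqs, hqA⟩ := exists_shrink p _ (diagList hN A hA)
  have key : ∀ (l : List K) (r : PC U B), r ≤ q → r.s = q.s ++ l → Un r.s := by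
    intro l
    induction l using List.reverseRecOn with
    | nil =>
      intro r _ h
      rw [h, List.append_nil, hqs]
      exact hbase
    | append_singleton l y ih =>
      intro r hr1 h
      -- the condition with the shorter stem
      have hsub : ∀ x ∈ q.s ++ l, x ∈ r.s := by
        intro x hx
        rw [h, ← List.append_assoc]
        exact List.mem_append_left _ hx
      obtain ⟨l', h1, h2, h3⟩ := hr1
      have hll : l' = l ++ [y] := by
        rw [h] at h1
        exact (List.append_cancel_left h1).symm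
      subst hll
      have hsort : (q.s ++ l ++ [y]).Pairwise (· < ·) := by
        rw [List.append_assoc, ← h]
        exact r.sorted
      let r0 : PC U B := ⟨q.s ++ l, r.A, r.mem, r.sub, fun x hx => r.sB x (hsub x hx),
        (List.pairwise_append.1 hsort).1, fun x hx => r.above x (hsub x hx)⟩
      have hr0 : r0 ≤ q := ⟨l, rfl, fun x hx => h2 x (by simp [hx]), h3⟩
      have h4 : Un r0.s := ih r0 hr0 rfl
      have h5 : y ∈ q.A := h2 y (by simp)
      rw [hqA] at h5
      have h6 : y ∈ A (q.s ++ l) := h5.2 (q.s ++ l) fun x hx =>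
        (List.pairwise_append.1 hsort).2.2 x hx y (by simp)
      simp only [A] at h6
      rw [if_pos ⟨r0, rfl, h4⟩] at h6
      rw [h, ← List.append_assoc]
      exact h6
  by_cases h : ∃ r ≤ q, r ∈ φ
  · obtain ⟨r, hr1, hr2⟩ := h
    obtain ⟨l, hl, _⟩ := id hr1
    exact (key l r hr1 hl).1 ⟨r, rfl, hr2⟩
  · push Not at h
    exact (hcon q hq hqs).2 h

/-- Deciding fewer than `κ` statements without changing the stem. -/
theorem decide_all (hN : Normal κ U) {ι : Type} (hι : #ι < κ) (φ : ι → Set (PC U B))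
    (hd : ∀ i, Down (φ i)) (hr : ∀ i, Reg (φ i)) (p : PC U B) :
    ∃ q ≤ p, q.s = p.s ∧ ∀ i, q ∈ φ i ∨ q ∈ fnot (φ i) := by
  have h1 : ∀ i, ∃ q ≤ p, q.s = p.s ∧ (q ∈ φ i ∨ q ∈ fnot (φ i)) :=
    fun i => prikry hN (hd i) (hr i) p
  choose Q hQ1 hQ2 hQ3 using h1
  obtain ⟨q, hq, hqs, hqA⟩ := exists_shrink p _ (hN.complete ι (fun i => (Q i).A) hι
    fun i => (Q i).mem)
  refine ⟨q, hq, hqs, fun i => ?_⟩
  have hle : q ≤ Q i := ⟨[], by rw [hqs, hQ2]; simp, by simp, by
    rw [hqA]
    exact fun x hx => mem_iInter.1 hx.2 i⟩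
  rcases hQ3 i with h | h
  · exact Or.inl (hd i _ h _ hle)
  · exact Or.inr (down_fnot _ _ h _ hle)

end

end Pool.Agent.V11248.Pk
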