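import Pool.Agent.V11248.Sq.OS

/-!
# The Tukey spectrum of a directed set, in the language of forcing
-/

namespace Pool.Agent.V11248.Pk

open Cardinal Pool.Agent.Helper669.Forcing Pool.Agent.V11248.OS

section

variable {P : Type} [Preorder P] {X : Type}

/-- The relation named by `Le` is a partial order on `X`, and any two elements of `X` have a
common upper bound. -/
def DirectedOrder (Le : X → X → Set P) : Set P :=
  fand (fall fun a : X => meets (Le a a))
  (fand (fall fun a : X => fall fun b : X =>
    fimp (fand (meets (Le a b)) (meets (Le b a))) (fground (a = b)))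
  (fand (fall fun a : X => fall fun b : X => fall fun c : X =>
    fimp (fand (meets (Le a b)) (meets (Le b c))) (meets (Le a c)))
  (fall fun a : X => fall fun b : X => fex fun c : X =>
    fand (meets (Le a c)) (meets (Le b c)))))

/-- The named subset `B` of `X` is cofinal in `X`. -/
def CofinalIn (Le : X → X → Set P) (B : X → Set P) : Set P :=
  fall fun a : X => fex fun b : X => fand (meets (B b)) (meets (Le a b))

/-- The regular cardinal `ν` is Tukey reducible to `X`: there is a map `f` from `X` to `ν` which
sends every cofinal subset `B` of `X` onto a cofinal subset of `ν`. -/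
def InSpectrum (Le : X → X → Set P) (ν : Cardinal.{0}) : Set P :=
  fex fun f : X → ν.ord.ToType → Set P => fand (IsFun f)
    (fall fun B : X → Set P => fimp (CofinalIn Le B)
      (fall fun i : ν.ord.ToType => fex fun a : X => fex fun j : ν.ord.ToType =>
        fand (fground (i ≤ j)) (fand (meets (B a)) (meets (f a j)))))

/-- Countable subsets of `X` are bounded: `X` is `ℵ₁`-directed. -/
def CountablyDirected (Le : X → X → Set P) : Set P :=
  fall fun g : ℕ → X → Set P => fimp (IsFun g) (fex fun b : X => fall fun n : ℕ =>
    fall fun a : X => fimp (meets (g n a)) (meets (Le a b)))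

/-- There is a function from `ω` to `κ` with unbounded range. -/
def CofinalityOmega (P : Type) [Preorder P] (κ : Cardinal.{0}) : Set P :=
  fex fun g : ℕ → κ.ord.ToType → Set P => fand (IsFun g)
    (fall fun a : κ.ord.ToType => fex fun n : ℕ => fex fun b : κ.ord.ToType =>
      fand (fground (a < b)) (meets (g n b)))

/-- The named `ℵ₁`-directed set `X` and the cardinal `κ` of cofinality `ω` refute the implication: the
cofinality `ω` of `κ` is not in the spectrum of `X`, the spectrum is unbounded in `κ` (so `κ` is a
limit of regular cardinals, hence a singular cardinal), `κ⁺` remains regular (hence it is still the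
successor of `κ`) and `κ⁺` is not in the spectrum. -/
def Refutes (κ : Cardinal.{0}) (Le : X → X → Set P) : Set P :=
  fand (DirectedOrder Le)
  (fand (CountablyDirected Le)
  (fand (CofinalityOmega P κ)
  (fand (fnot (InSpectrum Le ℵ₀))
  (fand (fall fun μ : Cardinal.{0} => fall fun _ : μ < κ => fex fun ν : Cardinal.{0} =>
    fand (fground (μ < ν ∧ ν < κ)) (fand (StaysRegular P ν) (InSpectrum Le ν)))
  (fand (StaysRegular P (Order.succ κ))
    (fnot (InSpectrum Le (Order.succ κ))))))))

end

end Pool.Agent.V11248.Pk
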