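import Pool.Agent.V11248.Pk.Spec

/-!
# The implication fails in the Prikry extension
-/

namespace Pool.Agent.V11248.Pk

open Cardinal Set Pool.Agent.Helper669.Forcing Pool.Agent.V11248.OS

section

variable {κ : Cardinal.{0}} {K : Type} [LinearOrder K] {U : Ultrafilter K} {h : K → K} {B : Set K}

/-- the statement from `exists_good` -/
def Phi {ν : Cardinal.{0}} (f : XX h → ν.ord.ToType → Set (PC U B)) (i : ν.ord.ToType)
    (F : XX h) : Set (PC U B) :=
  {q | ∀ r ≤ q, ∀ G : XX h, r ∈ LeN F G → ∀ j, r ∈ meets (f G j) → i ≤ j}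

theorem down_Phi {ν : Cardinal.{0}} (f : XX h → ν.ord.ToType → Set (PC U B)) (i : ν.ord.ToType)
    (F : XX h) : Down (Phi f i F) := fun _ hp _ hq r hr => hp r (hr.trans hq)

theorem countablyDirected (hN : Normal κ U) (hd : HData κ U h B) (p : PC U B) :
    p ∈ CountablyDirected (LeN (U := U) (B := B) (h := h)) := by
  classical
  intro g
  refine mem_fimp.2 fun q hq hg => ?_
  let T : ℕ → ℕ → K → Set (PC U B) := fun i n v => {r | ∃ F : XX h, r ∈ meets (g i F) ∧
    ∃ x, r.s[n]? = some x ∧ F.1 x = v}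
  have htot : ∀ i n, ∀ p ≤ q, ∃ q' ≤ p, ∃ v, q' ∈ T i n v := by
    intro i n p hp
    obtain ⟨q1, hq1, F, h1⟩ := IsFun.total (down_IsFun g _ hg _ hp) i
    obtain ⟨q3, hq3, hn⟩ := exists_length hN n q1
    exact ⟨q3, hq3.trans hq1, F.1 q3.s[n], F, down_meets _ _ h1 _ hq3, q3.s[n],
      List.getElem?_eq_getElem hn, rfl⟩
  obtain ⟨q1, hq1, F0, hF0, hb⟩ := bound hN hd q
    (fun i n v => {r | r ≤ q ∧ r ∈ T i n v})
    (by
      rintro i n v r ⟨h0, F, h1, x, h3, h4⟩ r' hr'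
      exact ⟨hr'.trans h0, F, down_meets _ _ h1 _ hr', x, get_of_le hr' h3, h4⟩)
    (fun i n p hp => by
      obtain ⟨q', hq', v, hv⟩ := htot i n p hp
      exact ⟨q', hq', v, hq'.trans hp, hv⟩)
    (by
      rintro i n v v' r ⟨h0, F, h1, x, h3, h4⟩ ⟨_, F', h1', x', h3', h4'⟩
      have hF : F = F' := IsFun.unique (down_IsFun g _ hg _ h0) h1 h1'
      subst hF
      rw [h3] at h3'
      have : x = x' := by simpa using h3'
      subst this
      rw [← h4, ← h4'])
    (by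
      rintro i n v r x ⟨_, F, h1, x', h3, h4⟩ hx
      rw [h3] at hx
      have : x' = x := by simpa using hx
      subst this
      rw [← h4]
      exact F.2 x')
  obtain ⟨G, hG⟩ := exists_above hd (⟨F0, hF0⟩ : XX h) ⟨F0, hF0⟩
  refine ⟨q1, hq1, mem_fex_of_mem G (down_fall fun _ => down_fall fun _ => down_fimp _ _) ?_⟩
  intro i F
  refine fimp_of fun r hr h1 => meets_of_mem (LeN_of (fun x hx => ?_) fun x hx => ?_)
  · obtain ⟨n, hn⟩ := List.getElem?_of_mem hx
    have h3 := hb i n (F.1 x) r x hr ⟨hr.trans hq1, F, h1, x, hn, rfl⟩ hn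
    exact h3.trans (hG x).1.le
  · obtain ⟨r2, hr2, h3, _⟩ := exists_snoc hN r hx
    have h4 : r2.s[r.s.length]? = some x := by
      rw [h3]
      simp
    have h5 := hb i r.s.length (F.1 x) r2 x (hr2.trans hr)
      ⟨hr2.trans (hr.trans hq1), F, down_meets _ _ h1 _ hr2, x, h4, rfl⟩ h4
    exact h5.trans_lt (hG x).1

theorem omega_notMem (hN : Normal κ U) (hd : HData κ U h B) (p : PC U B) :
    p ∈ fnot (InSpectrum (LeN (U := U) (B := B) (h := h)) ℵ₀) := by
  classical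
  intro p1 _ hp1
  obtain ⟨q, hq, f, hf, hgood⟩ := exists_good hp1
  let ι : Type := (ℵ₀ : Cardinal.{0}).ord.ToType
  have hι : #ι = ℵ₀ := mk_ord_toType _
  have hnomax : NoMaxOrder ι := Cardinal.noMaxOrder le_rfl
  obtain ⟨e⟩ : Nonempty (ℕ ≃ ι) := by
    rw [← Cardinal.eq, hι, mk_nat]
  let T : ℕ → ℕ → K → Set (PC U B) := fun i n v => {r | ∃ F : XX h, r ∈ Phi f (e i) F ∧
    (∀ F1, WellOrderingRel F1 F → r ∈ fnot (Phi f (e i) F1)) ∧ ∃ x, r.s[n]? = some x ∧ F.1 x = v}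
  have htot : ∀ i n, ∀ p ≤ q, ∃ q' ≤ p, ∃ v, q' ∈ T i n v := by
    intro i n p hp
    obtain ⟨q1, hq1, F1, h1⟩ := hgood (e i) p hp
    obtain ⟨F, ⟨q2, hq2, h2⟩, hmin⟩ := (IsWellFounded.wf (r := WellOrderingRel (α := XX h))).has_min
      {F | ∃ r ≤ p, r ∈ Phi f (e i) F} ⟨F1, q1, hq1, h1⟩
    obtain ⟨q3, hq3, hn⟩ := exists_length hN n q2
    refine ⟨q3, hq3.trans hq2, F.1 q3.s[n], F, down_Phi _ _ _ _ h2 _ hq3, fun F2 hF2 r hr hr' => ?_,
      q3.s[n], List.getElem?_eq_getElem hn, rfl⟩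
    exact hmin F2 ⟨r, (hr.trans hq3).trans hq2, hr'⟩ hF2
  have huniqF : ∀ (i : ℕ) (F F' : XX h) (r : PC U B), r ∈ Phi f (e i) F →
      (∀ F1, WellOrderingRel F1 F → r ∈ fnot (Phi f (e i) F1)) → r ∈ Phi f (e i) F' →
      (∀ F1, WellOrderingRel F1 F' → r ∈ fnot (Phi f (e i) F1)) → F = F' := by
    intro i F F' r h1 h2 h3 h4
    rcases trichotomous_of WellOrderingRel F F' with h5 | h5 | h5
    · exact absurd h1 (h4 F h5 r le_rfl)
    · exact h5
    · exact absurd h3 (h2 F' h5 r le_rfl)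
  obtain ⟨q1, hq1, F0, hF0, hb⟩ := bound hN hd q T
    (by
      rintro i n v r ⟨F, h1, h2, x, h3, h4⟩ r' hr'
      exact ⟨F, down_Phi _ _ _ _ h1 _ hr', fun F1 hF1 => down_fnot _ _ (h2 F1 hF1) _ hr', x,
        get_of_le hr' h3, h4⟩)
    htot
    (by
      rintro i n v v' r ⟨F, h1, h2, x, h3, h4⟩ ⟨F', h1', h2', x', h3', h4'⟩
      have hF := huniqF i F F' r h1 h2 h1' h2'
      subst hF
      rw [h3] at h3'
      have : x = x' := by simpa using h3'
      subst this
      rw [← h4, ← h4'])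
    (by
      rintro i n v r x ⟨F, h1, h2, x', h3, h4⟩ hx
      rw [h3] at hx
      have : x' = x := by simpa using hx
      subst this
      rw [← h4]
      exact F.2 x')
  obtain ⟨G, hG⟩ := exists_above hd (⟨F0, hF0⟩ : XX h) ⟨F0, hF0⟩
  obtain ⟨r0, hr0, j0, hj0⟩ := IsFun.total (down_IsFun f _ hf _ hq1) G
  obtain ⟨i, hi⟩ := exists_gt j0
  obtain ⟨r1, hr1, v, F, h1, h2, _⟩ := htot (e.symm i) 0 r0 (hr0.trans hq1)
  have hr1q : r1 ≤ q1 := hr1.trans hr0
  have hle : r1 ∈ LeN F G := by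
    refine LeN_of (fun x hx => ?_) fun x hx => ?_
    · obtain ⟨n, hn⟩ := List.getElem?_of_mem hx
      have h3 := hb (e.symm i) n (F.1 x) r1 x hr1q ⟨F, h1, h2, x, hn, rfl⟩ hn
      exact h3.trans (hG x).1.le
    · obtain ⟨r2, hr2, h3, _⟩ := exists_snoc hN r1 hx
      have h4 : r2.s[r1.s.length]? = some x := by
        rw [h3]
        simp
      have h5 := hb (e.symm i) r1.s.length (F.1 x) r2 x (hr2.trans hr1q)
        ⟨F, down_Phi _ _ _ _ h1 _ hr2, fun F1 hF1 => down_fnot _ _ (h2 F1 hF1) _ hr2, x, h4, rfl⟩ h4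
      exact h5.trans_lt (hG x).1
  have h3 := h1 r1 le_rfl G hle j0 (down_meets _ _ hj0 _ hr1)
  rw [Equiv.apply_symm_apply] at h3
  exact absurd hi (not_lt.2 h3)

/-- Pigeonhole principle for unbounded subsets of a regular cardinal. -/
theorem pigeon (hinf : ℵ₀ ≤ κ) {Y : Type} (hY : #Y ≤ κ) (I : Set (Order.succ κ).ord.ToType)
    (hI : ∀ b, ∃ i ∈ I, b < i) (c : (Order.succ κ).ord.ToType → Y) :
    ∃ y, ∀ b, ∃ i ∈ I, b < i ∧ c i = y := by
  by_contra hcon
  push Not at hcon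
  choose b hb using hcon
  have hreg : (Order.succ κ).IsRegular := isRegular_succ hinf
  have h3 : ∃ b' : (Order.succ κ).ord.ToType, ∀ y, b y < b' := by
    by_contra hcon
    push Not at hcon
    have hcof : IsCofinal (range b) := fun b' => by
      obtain ⟨x, hx⟩ := hcon b'
      exact ⟨b x, ⟨x, rfl⟩, hx⟩
    have h4 := Order.cof_le hcof
    rw [Ordinal.cof_toType, hreg.cof_ord] at h4
    exact absurd (h4.trans (mk_range_le.trans hY)) (not_le.2 (Order.lt_succ κ))
  obtain ⟨b', hb'⟩ := h3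
  obtain ⟨i, hi, hi'⟩ := hI b'
  exact hb (c i) i hi ((hb' (c i)).trans hi') rfl

theorem succ_notMem (hN : Normal κ U) (hd : HData κ U h B) (p : PC U B) :
    p ∈ fnot (InSpectrum (LeN (U := U) (B := B) (h := h)) (Order.succ κ)) := by
  classical
  intro p1 _ hp1
  obtain ⟨q, hq, f, hf, hgood⟩ := exists_good hp1
  have hinf : ℵ₀ ≤ κ := hN.unc.le
  have hnomax : NoMaxOrder (Order.succ κ).ord.ToType :=
    Cardinal.noMaxOrder (hinf.trans (Order.le_succ κ))
  choose P1 hP1 F hF using fun i => hgood i q le_rfl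
  obtain ⟨k, hk1, hk2⟩ := hd.dir (Order.succ κ).ord.ToType (fun i => (F i).1)
    (by rw [mk_ord_toType]) (fun i => Filter.univ_mem' fun x => (F i).2 x)
  have hcard : #(List K × List K) ≤ κ := by
    simp only [mk_prod, lift_id]
    exact (mul_le_mul' (card_list hN) (card_list hN)).trans (mul_eq_self hinf).le
  obtain ⟨⟨t, vals⟩, hI1⟩ := pigeon hinf hcard Set.univ
    (fun b => by
      obtain ⟨i, hi⟩ := exists_gt b
      exact ⟨i, mem_univ _, hi⟩) (fun i => ((P1 i).s, (P1 i).s.map (F i).1))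
  have hne : Nonempty (Order.succ κ).ord.ToType := by
    rw [← mk_ne_zero_iff, mk_ord_toType]
    exact (lt_of_lt_of_le aleph0_pos (hinf.trans (Order.le_succ κ))).ne'
  obtain ⟨i0, _, _, hi0⟩ := hI1 (Classical.arbitrary _)
  let I1 : Set (Order.succ κ).ord.ToType := {i | ((P1 i).s, (P1 i).s.map (F i).1) = (t, vals)}
  have hI1' : ∀ b, ∃ i ∈ I1, b < i := fun b => by
    obtain ⟨i, _, h1, h2⟩ := hI1 b
    exact ⟨i, h2, h1⟩
  have hst : ∀ i ∈ I1, (P1 i).s = t := fun i hi => congrArg Prod.fst hi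
  have hva : ∀ i ∈ I1, ∀ x ∈ t, (F i).1 x = (F i0).1 x := by
    intro i hi x hx
    have h1 : (P1 i).s.map (F i).1 = vals := congrArg Prod.snd hi
    have h2 : (P1 i0).s.map (F i0).1 = vals := congrArg Prod.snd hi0
    have h3 : (P1 i0).s = t := congrArg Prod.fst hi0
    rw [hst i hi, ← h2, h3] at h1
    exact List.map_inj_left.1 h1 x hx
  -- the common bound
  have hpos : ∀ x, ∃ y, y < h x := fun x => ⟨_, (hd.unc x).choose_spec.1⟩
  choose b0 hb0 using hpos
  let G0 : K → K := fun x => if x ∈ t then (F i0).1 x else if k x < h x then k x else b0 x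
  have hG0 : ∀ x, G0 x < h x := by
    intro x
    simp only [G0]
    split_ifs with h1 h2
    · exact (F i0).2 x
    · exact h2
    · exact hb0 x
  let G : XX h := ⟨G0, hG0⟩
  have hshr : ∀ i, ∃ p' ≤ P1 i, p'.s = (P1 i).s ∧
      p'.A = (P1 i).A ∩ ({x | k x < h x} ∩ {x | (F i).1 x < k x}) :=
    fun i => exists_shrink (P1 i) _ (Filter.inter_mem hk1 (hk2 i))
  choose P2 hP2 hP2s hP2A using hshr
  have hle : ∀ i ∈ I1, P2 i ∈ LeN (F i) G := by
    intro i hi
    refine LeN_of (fun x hx => ?_) fun x hx => ?_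
    · rw [hP2s, hst i hi] at hx
      change _ ≤ G0 x
      simp only [G0]
      rw [if_pos hx, hva i hi x hx]
    · rw [hP2A] at hx
      have hxt : x ∉ t := by
        intro h1
        rw [← hst i hi] at h1
        exact lt_irrefl _ ((P1 i).above x h1 x hx.1)
      change _ < G0 x
      simp only [G0]
      rw [if_neg hxt, if_pos (show k x < h x from hx.2.1)]
      exact hx.2.2
  have htot : ∀ i, ∃ r ≤ P2 i, ∃ j, r ∈ meets (f G j) := fun i =>
    IsFun.total (down_IsFun f _ hf _ ((hP2 i).trans (hP1 i))) G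
  choose P3 hP3 j hj using htot
  have hij : ∀ i ∈ I1, i ≤ j i := fun i hi =>
    hF i (P3 i) ((hP3 i).trans (hP2 i)) G (down_LeN _ _ _ (hle i hi) _ (hP3 i)) (j i) (hj i)
  obtain ⟨u, hu⟩ := pigeon hinf (card_list hN) I1 hI1' (fun i => (P3 i).s)
  obtain ⟨i1, hi1, _, hi1u⟩ := hu i0
  obtain ⟨i2, hi2, hi2', hi2u⟩ := hu (j i1)
  obtain ⟨r, hr1, hr2, _⟩ := compat (p := P3 i1) (q := P3 i2) (hi1u.trans hi2u.symm)
  have hrq : r ≤ q := hr1.trans ((hP3 i1).trans ((hP2 i1).trans (hP1 i1)))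
  have h1 : j i1 = j i2 := IsFun.unique (down_IsFun f _ hf _ hrq) (down_meets _ _ (hj i1) _ hr1)
    (down_meets _ _ (hj i2) _ hr2)
  have h2 := hij i2 hi2
  rw [← h1] at h2
  exact absurd hi2' (not_lt.2 h2)

variable [WellFoundedLT K]

/-- A regular point is (order isomorphic to) a regular cardinal. -/
theorem exists_iso (hd : HData κ U h B) {x : K} (hx : x ∈ B) :
    ∃ ν : Cardinal.{0}, ν = #(Iio (h x)) ∧ ν.IsRegular ∧ #(Iio x) < ν ∧
      Nonempty (Iio (h x) ≃o ν.ord.ToType) := by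
  have hlt : ∀ b < h x, #(Iio b) < #(Iio (h x)) := by
    intro b hb
    by_contra hcon
    push Not at hcon
    obtain ⟨c, hc, hc'⟩ := bdd_of_le hd hb hcon (fun y => (y : K)) fun y => y.2
    exact lt_irrefl _ (hc' ⟨c, hc⟩)
  have htype : Ordinal.type (α := Iio (h x)) (· < ·) = (#(Iio (h x))).ord := by
    apply le_antisymm
    · by_contra hcon
      push Not at hcon
      obtain ⟨b, hb⟩ := Ordinal.typein_surj (α := Iio (h x)) (· < ·) hcon
      have h1 : #{y : Iio (h x) // y < b} = #(Iio (h x)) := by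
        have h2 := congrArg Ordinal.card hb
        rw [Cardinal.card_ord] at h2
        rw [← h2]
        rfl
      have h2 : #{y : Iio (h x) // y < b} ≤ #(Iio (b : K)) :=
        mk_le_of_injective (f := fun y => (⟨y.1.1, y.2⟩ : Iio (b : K))) fun a a' haa =>
          Subtype.ext (Subtype.ext (congrArg (fun z : Iio (b : K) => (z : K)) haa))
      rw [h1] at h2
      exact absurd (hlt b b.2) (not_lt.2 h2)
    · exact Cardinal.ord_le_type _
  have hiso : Nonempty (Iio (h x) ≃o (#(Iio (h x))).ord.ToType) := by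
    have h1 : Ordinal.type (α := Iio (h x)) (· < ·) =
        Ordinal.type (α := (#(Iio (h x))).ord.ToType) (· < ·) := by
      rw [htype, Ordinal.type_toType]
    obtain ⟨e⟩ := Ordinal.type_eq.1 h1
    exact ⟨OrderIso.ofRelIsoLT e⟩
  have hxlt : #(Iio x) < #(Iio (h x)) := hlt x (hd.lt x hx)
  refine ⟨#(Iio (h x)), rfl, ⟨(hd.inf x hx).trans hxlt.le, ?_⟩, hxlt, hiso⟩
  obtain ⟨e⟩ := hiso
  by_contra hcon
  push Not at hcon
  obtain ⟨S, hS1, hS2⟩ := Order.exists_cof_eq (#(Iio (h x))).ord.ToType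
  rw [Ordinal.cof_toType] at hS2
  rw [← hS2] at hcon
  -- an element with `#S` predecessors
  have h1 : (#S).ord < Ordinal.type (α := Iio (h x)) (· < ·) := by
    rw [htype]
    exact Cardinal.ord_lt_ord.2 hcon
  obtain ⟨b, hb⟩ := Ordinal.typein_surj (α := Iio (h x)) (· < ·) h1
  have h2 : #{y : Iio (h x) // y < b} = #S := by
    have h3 := congrArg Ordinal.card hb
    rw [Cardinal.card_ord] at h3
    rw [← h3]
    rfl
  have h3 : #S ≤ #(Iio (b : K)) := by
    rw [← h2]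
    exact mk_le_of_injective (f := fun y : {y : Iio (h x) // y < b} =>
      (⟨y.1.1, y.2⟩ : Iio (b : K))) fun a a' haa =>
        Subtype.ext (Subtype.ext (congrArg (fun z : Iio (b : K) => (z : K)) haa))
  obtain ⟨c, hc, hc'⟩ := bdd_of_le hd b.2 h3 (fun s => (e.symm s : K)) fun s => (e.symm s).2
  obtain ⟨s, hs, hs'⟩ := hS1 (e ⟨c, hc⟩)
  have h4 := hc' ⟨s, hs⟩
  have h5 : (⟨c, hc⟩ : Iio (h x)) ≤ e.symm s := by
    rw [← e.le_iff_le, OrderIso.apply_symm_apply]
    exact hs'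
  exact absurd h4 (not_lt.2 h5)

theorem spectrum_unbounded (hN : Normal κ U) (hd : HData κ U h B) (p : PC U B) {μ : Cardinal.{0}}
    (hμ : μ < κ) : p ∈ fex fun ν : Cardinal.{0} =>
      fand (fground (μ < ν ∧ ν < κ)) (fand (StaysRegular (PC U B) ν)
        (InSpectrum (LeN (U := U) (B := B) (h := h)) ν)) := by
  classical
  refine mem_fex.2 fun q _ => ?_
  -- a point with at least `μ` predecessors
  obtain ⟨a, ha⟩ : ∃ a : K, μ ≤ #(Iio a) := by
    have h1 : #(μ.out) ≤ #K := by rw [mk_out, hN.card]; exact hμ.le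
    obtain ⟨i⟩ := h1
    obtain ⟨b, hb⟩ := hN.bdd (range i) (mk_range_le.trans_lt (by rw [mk_out]; exact hμ))
    refine ⟨b, ?_⟩
    rw [← mk_out μ]
    exact mk_le_of_injective (f := fun x => (⟨i x, hb _ ⟨x, rfl⟩⟩ : Iio b)) fun x y hxy =>
      i.injective (by simpa using hxy)
  obtain ⟨x, hx1, hx2⟩ := nonempty_of_mem (Filter.inter_mem q.mem (hN.tail a))
  obtain ⟨r, hr, hrs, _⟩ := exists_snoc hN q hx1
  have hxB : x ∈ B := q.sub hx1
  obtain ⟨ν, hν, hνreg, hνx, ⟨e⟩⟩ := exists_iso hd hxB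
  have hxr : x ∈ r.s := by
    rw [hrs]
    simp
  refine ⟨r, hr, ν, ⟨?_, ?_⟩, staysRegular_lt hN hνreg (by rw [hν]; exact hN.small _) r, ?_⟩
  · exact (ha.trans (mk_le_mk_of_subset fun y hy => lt_trans hy hx2)).trans_lt hνx
  · rw [hν]
    exact hN.small _
  · have hpos : ∀ x, ∃ y, y < h x := fun x => ⟨_, (hd.unc x).choose_spec.1⟩
    choose b0 hb0 using hpos
    refine mem_fex_of_mem (fun F j => fground (j = e ⟨F.1 x, F.2 x⟩)) ?_ ⟨⟨?_, ?_⟩, ?_⟩
    · exact down_fand (down_IsFun _) (down_fall fun _ => down_fimp _ _)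
    · intro F
      exact mem_fex_of_mem (e ⟨F.1 x, F.2 x⟩) (down_meets _) (meets_of_mem rfl)
    · intro F j j'
      refine fimp_of fun q' _ h1 => ?_
      obtain ⟨_, _, _, h2, _⟩ := h1.1 q' le_rfl
      obtain ⟨_, _, _, h3, _⟩ := h1.2 q' le_rfl
      exact (show j = _ from h2).trans (show j' = _ from h3).symm
    · intro C
      refine fimp_of fun q' hq' h1 => ?_
      intro i
      let v : Iio (h x) := e.symm i
      let Fv : XX h := ⟨fun y => if y = x then v.1 else b0 y, fun y => by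
        by_cases hy : y = x
        · subst hy
          simp only [if_true]
          exact v.2
        · simp only [if_neg hy]
          exact hb0 y⟩
      refine mem_fex.2 fun q1 hq1 => ?_
      obtain ⟨q2, hq2, F', h2, h3⟩ := mem_fex.1 (h1 Fv) q1 hq1
      obtain ⟨q3, hq3, h4⟩ := exists_mem (down_LeN Fv F') h3
      have hq3r : q3 ≤ r := hq3.trans (hq2.trans (hq1.trans hq'))
      have hx3 : x ∈ q3.s := by
        obtain ⟨l, h5, _⟩ := hq3r
        rw [h5]
        exact List.mem_append_left _ hxr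
      have h5 : v.1 ≤ F'.1 x := by
        have h6 := (W_of_LeN h4).1 x hx3
        simpa [Fv] using h6
      have h6 : i ≤ e ⟨F'.1 x, F'.2 x⟩ := by
        rw [← e.symm.le_iff_le, OrderIso.symm_apply_apply]
        exact h5
      refine ⟨q3, hq3.trans hq2, F', mem_fex_of_mem (e ⟨F'.1 x, F'.2 x⟩)
        (down_fand (down_fground _) (down_fand (down_meets _) (down_meets _)))
        ⟨h6, down_meets _ _ h2 _ hq3, meets_of_mem rfl⟩⟩

end

end Pool.Agent.V11248.Pk
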