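import Pool.Agent.V11248.Pk.Defs
import Pool.Agent.V11248.Pk.Cond

/-!
# The counterexample in the Prikry extension
-/

namespace Pool.Agent.V11248.Pk

open Cardinal Set Pool.Agent.Helper669.Forcing Pool.Agent.V11248.OS

/-- The data of the product. -/
structure HData (κ : Cardinal.{0}) {K : Type} [LinearOrder K] (U : Ultrafilter K) (h : K → K)
    (B : Set K) : Prop where
  memB : B ∈ U
  inf : ∀ a ∈ B, ℵ₀ ≤ #(Iio a)
  lt : ∀ a ∈ B, a < h a
  reg : ∀ a, RegPt (h a)
  unc : ∀ a, ∃ b < h a, ℵ₀ ≤ #(Iio b)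
  dir : ∀ (I : Type) (f : I → K → K), #I ≤ Order.succ κ → (∀ i, LtU U (f i) h) →
    ∃ k, LtU U k h ∧ ∀ i, LtU U (f i) k

section

variable {κ : Cardinal.{0}} {K : Type} [LinearOrder K] {U : Ultrafilter K} {h : K → K} {B : Set K}

theorem exists_hdata [WellFoundedLT K] (hN : Normal κ U) (hpow : Order.succ κ < 2 ^ κ) :
    ∃ h B, HData κ U h B := by
  classical
  obtain ⟨g, hg, hdir⟩ := hN.exists_h hpow
  have hinf : {a : K | ℵ₀ ≤ #(Iio a)} ∈ U := by
    -- a point with infinitely many predecessors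
    have h1 : ∃ b : K, ℵ₀ ≤ #(Iio b) := by
      have h2 : ℵ₀ ≤ #K := by rw [hN.card]; exact hN.unc.le
      obtain ⟨e⟩ : Nonempty (ℕ ↪ K) := by
        rw [← mk_nat] at h2
        exact h2
      obtain ⟨b, hb⟩ := hN.bdd (range e) (by
        refine mk_range_le.trans_lt ?_
        rw [mk_nat]
        exact hN.unc)
      refine ⟨b, ?_⟩
      rw [← mk_nat]
      exact mk_le_of_injective (f := fun n => (⟨e n, hb _ ⟨n, rfl⟩⟩ : Iio b)) fun m n hmn =>
        e.injective (by simpa using hmn)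
    obtain ⟨b, hb⟩ := h1
    exact Filter.mem_of_superset (hN.tail b) fun a ha =>
      hb.trans (mk_le_mk_of_subset fun x hx => lt_trans hx ha)
  have hB := hN.inter hg hinf
  obtain ⟨a0, ha0⟩ := nonempty_of_mem hB
  let B : Set K := {a | a < g a ∧ RegPt (g a)} ∩ {a : K | ℵ₀ ≤ #(Iio a)}
  let h : K → K := fun a => if a ∈ B then g a else g a0
  have hh : ∀ a, ∃ b ∈ B, h a = g b := by
    intro a
    by_cases ha : a ∈ B
    · exact ⟨a, ha, by simp only [h]; rw [if_pos ha]⟩
    · exact ⟨a0, ha0, by simp only [h]; rw [if_neg ha]⟩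
  have hB1 : ∀ a ∈ B, h a = g a := fun a ha => by simp only [h]; rw [if_pos ha]
  refine ⟨h, B, hB, fun a ha => ha.2, fun a ha => by rw [hB1 a ha]; exact ha.1.1, ?_, ?_, ?_⟩
  · intro a
    obtain ⟨b, hb, h1⟩ := hh a
    rw [h1]
    exact hb.1.2
  · intro a
    obtain ⟨b, hb, h1⟩ := hh a
    rw [h1]
    exact ⟨b, hb.1.1, hb.2⟩
  · intro I f hI hf
    obtain ⟨k, hk1, hk2⟩ := hdir I f hI fun i => Filter.mem_of_superset (Filter.inter_mem (hf i) hB)
      fun a ha => by
        have h1 : f i a < h a := ha.1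
        rw [hB1 a ha.2] at h1
        exact h1
    refine ⟨k, Filter.mem_of_superset (Filter.inter_mem hk1 hB) fun a ha => ?_, hk2⟩
    change k a < h a
    rw [hB1 a ha.2]
    exact ha.1

theorem bdd_of_le (hd : HData κ U h B) {a b : K} (hb : b < h a) {J : Type} (hJ : #J ≤ #(Iio b))
    (f : J → K) (hf : ∀ j, f j < h a) : ∃ c < h a, ∀ j, f j < c := by
  classical
  rcases isEmpty_or_nonempty J with hE | hE
  · exact ⟨b, hb, fun j => (hE.false j).elim⟩
  obtain ⟨i⟩ := hJ
  let e : K → J := fun x => if hx : x < b then Function.invFun i ⟨x, hx⟩ else Classical.arbitrary J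
  obtain ⟨c, hc, hc'⟩ := hd.reg a b hb (fun x => f (e x)) fun x _ => hf _
  refine ⟨c, hc, fun j => ?_⟩
  have h1 := hc' (i j) (i j).2
  have h2 : e (i j) = j := by
    simp only [e]
    rw [dif_pos (show ((i j : Iio b) : K) < b from (i j).2)]
    exact Function.leftInverse_invFun i.injective j
  rw [h2] at h1
  exact h1

theorem bdd_countable (hd : HData κ U h B) {a : K} {J : Type} (hJ : #J ≤ ℵ₀)
    (f : J → K) (hf : ∀ j, f j < h a) : ∃ c < h a, ∀ j, f j < c := by
  obtain ⟨b, hb, hb'⟩ := hd.unc a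
  exact bdd_of_le hd hb (hJ.trans hb') f hf

theorem exists_between (hd : HData κ U h B) {a c : K} (hc : c < h a) : ∃ c' < h a, c < c' := by
  obtain ⟨c', hc', h1⟩ := bdd_countable hd (J := Unit) (by simp) (fun _ => c) fun _ => hc
  exact ⟨c', hc', h1 ()⟩

/-- the name of the `n`-th point of the generic sequence -/
def Pt (n : ℕ) (x : K) : Set (PC U B) := {p | p.s[n]? = some x}

theorem down_Pt (n : ℕ) (x : K) : Down (Pt (U := U) (B := B) n x) :=
  fun _ hp _ hq => get_of_le hq hp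

theorem meets_Pt {n : ℕ} {x y : K} {p : PC U B} (h1 : p ∈ meets (Pt n x)) (h2 : p.s[n]? = some y) :
    x = y := by
  obtain ⟨r, hr, s, hs, hrs⟩ := h1 p le_rfl
  have h3 := get_of_le hr h2
  have h4 := get_of_le hrs hs
  rw [h3] at h4
  simpa using h4.symm

/-- The bounding lemma: countably many members of the product of the `h (x n)` in the extension
are bounded by a ground model function. -/
theorem bound (hN : Normal κ U) (hd : HData κ U h B) (p0 : PC U B)
    (T : ℕ → ℕ → K → Set (PC U B)) (hdown : ∀ i n v, Down (T i n v))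
    (htot : ∀ i n, ∀ p ≤ p0, ∃ q ≤ p, ∃ v, q ∈ T i n v)
    (huniq : ∀ i n v v' q, q ∈ T i n v → q ∈ T i n v' → v = v')
    (hlt : ∀ i n v q x, q ∈ T i n v → q.s[n]? = some x → v < h x) :
    ∃ q ≤ p0, ∃ F : K → K, (∀ x, F x < h x) ∧
      ∀ i n v r x, r ≤ q → r ∈ T i n v → r.s[n]? = some x → v ≤ F x := by
  classical
  let T' : ℕ → ℕ → K → Set (PC U B) := fun i n v => {p | ∀ q ≤ p, ∃ r ≤ q, r ∈ T i n v}
  have hT'd : ∀ i n v, Down (T' i n v) := fun i n v p hp q hq r hr => hp r (hr.trans hq)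
  have hT'r : ∀ i n v, Reg (T' i n v) := by
    intro i n v p hp q hq
    obtain ⟨r, hr, h1⟩ := hp q hq
    obtain ⟨r', hr', h2⟩ := h1 r le_rfl
    exact ⟨r', hr'.trans hr, h2⟩
  -- deciding one value
  have hdec : ∀ i n x, ∀ p ≤ p0, p.s[n]? = some x → ∃ q ≤ p, q.s = p.s ∧ ∃ v < h x,
      q ∈ T' i n v := by
    intro i n x p hp hx
    obtain ⟨q, hq, hqs, h1⟩ := decide_all hN (ι := Iio (h x)) (hN.small _)
      (fun v => T' i n v) (fun v => hT'd i n v) (fun v => hT'r i n v) p
    refine ⟨q, hq, hqs, ?_⟩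
    obtain ⟨r, hr, v, hv⟩ := htot i n q (hq.trans hp)
    have hvx : v < h x := hlt i n v r x hv (get_of_le (hr.trans hq) hx)
    refine ⟨v, hvx, ?_⟩
    rcases h1 ⟨v, hvx⟩ with h2 | h2
    · exact h2
    · exact absurd (fun r' hr' => ⟨r', le_rfl, hdown i n v _ hv _ hr'⟩) (h2 r hr)
  -- the chosen values
  have hch : ∀ (i n : ℕ) (t : List K), ∃ (q : PC U B) (v : K), ∀ x, t[n]? = some x →
      (∃ p ≤ p0, p.s = t) → q.s = t ∧ q ≤ p0 ∧ v < h x ∧ q ∈ T' i n v := by
    intro i n t
    by_cases hx : ∃ x, t[n]? = some x ∧ ∃ p ≤ p0, p.s = t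
    · obtain ⟨x, hx, p, hp, rfl⟩ := hx
      obtain ⟨q, hq, hqs, v, hv, h1⟩ := hdec i n x p hp hx
      refine ⟨q, v, fun y hy _ => ⟨hqs, hq.trans hp, ?_, h1⟩⟩
      rw [hx] at hy
      have : x = y := by simpa using hy
      rw [← this]
      exact hv
    · exact ⟨p0, (exists_point p0).choose, fun x h1 h2 => absurd ⟨x, h1, h2⟩ hx⟩
  choose Qc Φ hΦ using hch
  let A : List K → Set K := fun t => {y | ∀ i n, y ∈ (Qc i n t).A}
  have hA : ∀ t, A t ∈ U := by
    intro t
    have h1 : ∀ i, {y | ∀ n, y ∈ (Qc i n t).A} ∈ U := fun i => hN.nat fun n => (Qc i n t).mem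
    exact hN.nat h1
  obtain ⟨q, hq, hqs, hqA⟩ := exists_shrink p0 _ (Filter.inter_mem (diagList hN A hA) (hA p0.s))
  have hqE : ∀ y ∈ q.A, ∀ t : List K, (∀ x ∈ t, x < y) → ∀ i n, y ∈ (Qc i n t).A := by
    intro y hy t ht i n
    rw [hqA] at hy
    exact hy.2.1 t ht i n
  have hqP : ∀ y ∈ q.A, ∀ i n, y ∈ (Qc i n p0.s).A := by
    intro y hy i n
    rw [hqA] at hy
    exact hy.2.2 i n
  -- the bounding function
  let J : K → Type := fun x => ℕ × ℕ × (List (Iic x) ⊕ Unit)
  let lst : ∀ x, (List (Iic x) ⊕ Unit) → List K := fun x => Sum.elim (fun l => l.map Subtype.val)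
    fun _ => p0.s
  have hpos : ∀ x, ∃ y, y < h x := fun x => ⟨_, (hd.unc x).choose_spec.1⟩
  choose b0 hb0 using hpos
  let val : ∀ x, J x → K := fun x j =>
    if (lst x j.2.2)[j.2.1]? = some x ∧ ∃ p ≤ p0, p.s = lst x j.2.2 then Φ j.1 j.2.1 (lst x j.2.2)
    else b0 x
  have hval : ∀ x j, val x j < h x := by
    intro x j
    simp only [val]
    split_ifs with h1
    · exact (hΦ j.1 j.2.1 _ x h1.1 h1.2).2.2.1
    · exact hb0 x
  have hJ : ∀ x ∈ B, #(J x) ≤ #(Iio x) := by
    intro x hx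
    have hinf := hd.inf x hx
    have h1 : #(Iic x) ≤ #(Iio x) := by
      have h2 : Iic x ⊆ insert x (Iio x) := by
        intro y hy
        rcases (show y ≤ x from hy).eq_or_lt with h3 | h3
        · exact Or.inl h3
        · exact Or.inr h3
      refine (mk_le_mk_of_subset h2).trans (mk_insert_le.trans ?_)
      exact add_le_of_le hinf le_rfl (one_lt_aleph0.le.trans hinf)
    have h2 : #(List (Iic x)) ≤ #(Iio x) := by
      refine (mk_list_le_max _).trans (max_le hinf h1)
    simp only [J, mk_prod, mk_sum, lift_uzero, mk_nat, lift_id, mk_fintype, Fintype.card_unit,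
      Nat.cast_one, lift_one, lift_aleph0]
    refine (mul_le_mul' hinf (mul_le_mul' hinf (add_le_of_le hinf h2
      (one_lt_aleph0.le.trans hinf)))).trans ?_
    rw [mul_eq_self hinf, mul_eq_self hinf]
  have hF : ∀ x, ∃ c < h x, x ∈ B → ∀ j, val x j < c := by
    intro x
    by_cases hx : x ∈ B
    · obtain ⟨c, hc, h1⟩ := bdd_of_le hd (hd.lt x hx) (hJ x hx) (val x) (hval x)
      exact ⟨c, hc, fun _ => h1⟩
    · exact ⟨b0 x, hb0 x, fun h' => absurd h' hx⟩
  choose F hF1 hF2 using hF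
  refine ⟨q, hq, F, hF1, ?_⟩
  intro i n v r x hr hrT hrx
  have hxr : x ∈ r.s := List.mem_of_getElem? hrx
  have hxB : x ∈ B := r.sB x hxr
  obtain ⟨l, hl1, hl2, hl3⟩ := id hr
  rw [hqs] at hl1
  -- the relevant initial segment of the stem
  have key : ∀ (t rest : List K) (j : List (Iic x) ⊕ Unit), lst x j = t → t[n]? = some x →
      (∃ p ≤ p0, p.s = t) → r.s = t ++ rest → (∀ y ∈ rest, y ∈ (Qc i n t).A) →
      (∀ y ∈ r.A, y ∈ (Qc i n t).A) → v ≤ F x := by
    intro t rest j hj ht hp hrt h1 h2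
    obtain ⟨h3, _, _, h6⟩ := hΦ i n t x ht hp
    have hle : r ≤ Qc i n t := ⟨rest, by rw [h3]; exact hrt, h1, h2⟩
    obtain ⟨r', hr', h7⟩ := h6 r hle
    have h8 : v = Φ i n t := huniq i n _ _ r' (hdown i n v _ hrT _ hr') h7
    have h9 := hF2 x hxB (i, n, j)
    simp only [val, hj] at h9
    rw [if_pos ⟨ht, hp⟩] at h9
    rw [h8]
    exact h9.le
  by_cases hn : n < p0.s.length
  · have h1 : p0.s[n]? = some x := by
      rw [hl1, List.getElem?_append_left hn] at hrx
      exact hrx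
    exact key p0.s l (Sum.inr ()) rfl h1 ⟨p0, le_rfl, rfl⟩ hl1
      (fun y hy => hqP y (hl2 y hy) i n) (fun y hy => hqP y (hl3 hy) i n)
  · push Not at hn
    have hnl : n < r.s.length := (List.getElem?_eq_some_iff.1 hrx).1
    have hsplit : r.s = r.s.take (n + 1) ++ r.s.drop (n + 1) := (List.take_append_drop _ _).symm
    have htx : (r.s.take (n + 1))[n]? = some x := by
      rw [List.getElem?_take_of_lt (Nat.lt_succ_self n)]
      exact hrx
    have hsort := r.sorted
    rw [hsplit, List.pairwise_append] at hsort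
    obtain ⟨hs1, hs2, hs3⟩ := hsort
    -- all members of the initial segment are at most `x`
    have hle : ∀ y ∈ r.s.take (n + 1), y ≤ x := by
      intro y hy
      obtain ⟨m, hm⟩ := List.getElem?_of_mem hy
      have hm' : m < (r.s.take (n + 1)).length := (List.getElem?_eq_some_iff.1 hm).1
      have hmn : m ≤ n := by
        rw [List.length_take] at hm'
        omega
      rcases hmn.eq_or_lt with h1 | h1
      · subst h1
        rw [htx] at hm
        have : x = y := by simpa using hm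
        exact this.ge
      · have h2 := List.pairwise_iff_getElem.1 hs1 m n hm'
          (List.getElem?_eq_some_iff.1 htx).1 h1
        rw [(List.getElem?_eq_some_iff.1 hm).2, (List.getElem?_eq_some_iff.1 htx).2] at h2
        exact h2.le
    obtain ⟨lj, hlj⟩ : ∃ lj : List (Iic x), lj.map Subtype.val = r.s.take (n + 1) := by
      refine ⟨(r.s.take (n + 1)).pmap (fun y hy => ⟨y, hy⟩) hle, ?_⟩
      rw [List.map_pmap]
      simp
    have htl : r.s.take (n + 1) = p0.s ++ l.take (n + 1 - p0.s.length) := by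
      rw [hl1, List.take_append, List.take_of_length_le (by omega)]
    have hdl : ∀ y ∈ r.s.drop (n + 1), y ∈ l := by
      intro y hy
      rw [hl1, List.drop_append, List.drop_of_length_le (by omega), List.nil_append] at hy
      exact List.mem_of_mem_drop hy
    have htB : ∀ y ∈ r.s.take (n + 1), y ∈ r.s := fun y hy => List.mem_of_mem_take hy
    have hpt : ∃ p ≤ p0, p.s = r.s.take (n + 1) := by
      refine ⟨⟨r.s.take (n + 1), q.A ∩ {y | ∀ x ∈ r.s.take (n + 1), x < y},
        Filter.inter_mem q.mem (hN.above _), inter_subset_left.trans q.sub,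
        fun y hy => r.sB y (htB y hy), hs1, fun y hy z hz => hz.2 y hy⟩, ?_, rfl⟩
      refine le_trans ⟨l.take (n + 1 - p0.s.length), by rw [hqs]; exact htl,
        fun y hy => hl2 y (List.mem_of_mem_take hy), inter_subset_left⟩ hq
    refine key (r.s.take (n + 1)) (r.s.drop (n + 1)) (Sum.inl lj) hlj htx hpt hsplit ?_ ?_
    · intro y hy
      exact hqE y (hl2 y (hdl y hy)) _ (fun z hz => hs3 z hz y hy) i n
    · intro y hy
      exact hqE y (hl3 hy) _ (fun z hz => r.above z (htB z hz) y hy) i n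

end

end Pool.Agent.V11248.Pk
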