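import Mathlib

/-!
# Normal measures, and a product of regular cardinals with a large cofinality modulo the measure
-/

namespace Pool.Agent.V11248.Pk

open Cardinal Set

/-- `U` is a normal measure on the well-ordered set `K` of type `κ`. -/
structure Normal (κ : Cardinal.{0}) {K : Type} [LinearOrder K] (U : Ultrafilter K) : Prop where
  unc : ℵ₀ < κ
  card : #K = κ
  small : ∀ a : K, #(Iio a) < κ
  complete : ∀ (ι : Type) (A : ι → Set K), #ι < κ → (∀ i, A i ∈ U) → (⋂ i, A i) ∈ U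
  tail : ∀ a : K, {x | a < x} ∈ U
  normal : ∀ A : K → Set K, (∀ a, A a ∈ U) → {x | ∀ a < x, x ∈ A a} ∈ U

section

variable {κ : Cardinal.{0}} {K : Type} [LinearOrder K] {U : Ultrafilter K}

theorem Normal.inter (h : Normal κ U) {A B : Set K} (hA : A ∈ U) (hB : B ∈ U) : A ∩ B ∈ U :=
  Filter.inter_mem hA hB

theorem nonempty_of_mem {A : Set K} (hA : A ∈ U) : ∃ x, x ∈ A :=
  Ultrafilter.nonempty_of_mem hA

theorem Normal.bdd (h : Normal κ U) (A : Set K) (hA : #A < κ) : ∃ b, ∀ a ∈ A, a < b := by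
  have h1 := h.complete A (fun a => {x | (a : K) < x}) hA (fun a => h.tail a)
  obtain ⟨b, hb⟩ := nonempty_of_mem h1
  exact ⟨b, fun a ha => mem_iInter.1 hb ⟨a, ha⟩⟩

theorem Normal.noMax (h : Normal κ U) : NoMaxOrder K := ⟨fun a => by
  obtain ⟨b, hb⟩ := nonempty_of_mem (h.tail a)
  exact ⟨b, hb⟩⟩

theorem Normal.smallIic (h : Normal κ U) (a : K) : #(Iic a) < κ := by
  have := h.noMax
  obtain ⟨b, hb⟩ := exists_gt a
  exact (mk_le_mk_of_subset fun x hx => lt_of_le_of_lt hx hb).trans_lt (h.small b)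

/-- the strong limit property -/
theorem Normal.pow (h : Normal κ U) {M : Type} (hM : #M < κ) : #(Set M) < κ := by
  classical
  by_contra hcon
  push Not at hcon
  rw [← h.card] at hcon
  obtain ⟨e⟩ := hcon
  have h1 : ∀ m : M, ∃ A ∈ U, ∀ x ∈ A, ∀ y ∈ A, m ∈ e x ↔ m ∈ e y := by
    intro m
    rcases Ultrafilter.mem_or_compl_mem U {x | m ∈ e x} with h2 | h2
    · exact ⟨_, h2, fun x hx y hy => ⟨fun _ => hy, fun _ => hx⟩⟩
    · exact ⟨_, h2, fun x hx y hy => ⟨fun h' => absurd h' hx, fun h' => absurd h' hy⟩⟩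
  choose A hA hA' using h1
  have h2 := h.complete M A hM hA
  obtain ⟨x, hx⟩ := nonempty_of_mem h2
  obtain ⟨y, hy, hxy⟩ := nonempty_of_mem (h.inter h2 (h.tail x))
  have h3 : e x = e y := Set.ext fun m => hA' m x (mem_iInter.1 hx m) y (mem_iInter.1 hy m)
  exact absurd (e.injective h3) (ne_of_lt hxy)

/-- regressive functions are constant on a set in the measure -/
theorem Normal.regressive (h : Normal κ U) (f : K → K) (hf : {x | f x < x} ∈ U) :
    ∃ c, {x | f x = c} ∈ U := by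
  classical
  by_contra hcon
  push Not at hcon
  have h1 : ∀ c, {x | f x ≠ c} ∈ U := by
    intro c
    rcases Ultrafilter.mem_or_compl_mem U {x | f x = c} with h2 | h2
    · exact absurd h2 (hcon c)
    · exact h2
  obtain ⟨x, hx1, hx2⟩ := nonempty_of_mem (h.inter (h.normal _ h1) hf)
  exact hx1 (f x) hx2 rfl

/-- `f < g` modulo the measure. -/
def LtU (U : Ultrafilter K) (f g : K → K) : Prop := {x | f x < g x} ∈ U

/-- `f = g` modulo the measure. -/
def EqU (U : Ultrafilter K) (f g : K → K) : Prop := {x | f x = g x} ∈ U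

theorem ltU_or (U : Ultrafilter K) (f g : K → K) : LtU U f g ∨ EqU U f g ∨ LtU U g f := by
  rcases Ultrafilter.mem_or_compl_mem U {x | f x < g x} with h | h
  · exact Or.inl h
  · rcases Ultrafilter.mem_or_compl_mem U {x | f x = g x} with h' | h'
    · exact Or.inr (Or.inl h')
    · refine Or.inr (Or.inr (Filter.mem_of_superset (Filter.inter_mem h h') ?_))
      rintro x ⟨h1, h2⟩
      exact lt_of_le_of_ne (not_lt.1 h1) fun h3 => h2 h3.symm

theorem LtU.trans {f g k : K → K} (h : LtU U f g) (h' : LtU U g k) : LtU U f k :=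
  Filter.mem_of_superset (Filter.inter_mem h h') fun _ hx => lt_trans hx.1 hx.2

theorem ltU_irrefl (f : K → K) : ¬ LtU U f f := by
  intro h
  obtain ⟨x, hx⟩ := nonempty_of_mem h
  exact lt_irrefl _ hx

variable [WellFoundedLT K]

theorem Normal.wf (h : Normal κ U) : WellFounded (LtU U) := by
  have hso : IsStrictOrder (K → K) (LtU U) :=
    { irrefl := ltU_irrefl
      trans := fun _ _ _ h1 h2 => h1.trans h2 }
  rw [RelEmbedding.wellFounded_iff_isEmpty]
  refine ⟨fun e => ?_⟩
  have h1 : ∀ n, {x | e (n + 1) x < e n x} ∈ U := fun n => e.map_rel_iff.2 (Nat.lt_succ_self n)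
  have h2 := h.complete ℕ (fun n => {x | e (n + 1) x < e n x}) (by rw [mk_nat]; exact h.unc) h1
  obtain ⟨x, hx⟩ := nonempty_of_mem h2
  obtain ⟨y, ⟨n, rfl⟩, hy⟩ := (wellFounded_lt (α := K)).has_min (range fun n => e n x) ⟨_, ⟨0, rfl⟩⟩
  exact hy _ ⟨n + 1, rfl⟩ (mem_iInter.1 hx n)

/-- Below `g` there are at most `κ⁺` functions modulo the measure. -/
def Small (κ : Cardinal.{0}) (U : Ultrafilter K) (g : K → K) : Prop :=
  ∃ (I : Type) (f : I → K → K), #I ≤ Order.succ κ ∧ ∀ k, LtU U k g → ∃ i, EqU U k (f i)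

omit [WellFoundedLT K] in
theorem Normal.exists_large (h : Normal κ U) (hpow : Order.succ κ < 2 ^ κ) :
    ∃ g, ¬ Small κ U g := by
  classical
  have h1 : ∀ a : K, Nonempty (Set (Iio a) ↪ K) := by
    intro a
    have h2 := h.pow (h.small a)
    rw [← h.card] at h2
    exact h2.le
  have h3 : ∀ a : K, ∃ (c : Set (Iio a) ↪ K) (b : K), ∀ t, c t < b := by
    intro a
    obtain ⟨c⟩ := h1 a
    obtain ⟨b, hb⟩ := h.bdd (range c) (mk_range_le.trans_lt (h.pow (h.small a)))
    exact ⟨c, b, fun t => hb _ ⟨t, rfl⟩⟩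
  choose c b hb using h3
  refine ⟨b, ?_⟩
  rintro ⟨I, f, hI, hf⟩
  let F : Set K → K → K := fun A a => c a {x | (x : K) ∈ A}
  have h4 : ∀ A, ∃ i, EqU U (F A) (f i) := fun A => hf (F A) (Filter.univ_mem' fun a => hb a _)
  choose i hi using h4
  have hinj : Function.Injective i := by
    intro A B hAB
    by_contra hne
    obtain ⟨a, ha⟩ : ∃ a, ¬ (a ∈ A ↔ a ∈ B) := by
      by_contra hcon
      push Not at hcon
      exact hne (Set.ext hcon)
    have h5 := hi B
    rw [← hAB] at h5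
    obtain ⟨x, ⟨hx1, hx2⟩, hx3⟩ := nonempty_of_mem (h.inter (h.inter (hi A) h5) (h.tail a))
    have h6 : F A x = F B x := (show F A x = f (i A) x from hx1).trans
      (show F B x = f (i A) x from hx2).symm
    have h7 := (c x).injective h6
    apply ha
    have h8 : (⟨a, hx3⟩ : Iio x) ∈ {y : Iio x | (y : K) ∈ A} ↔
        (⟨a, hx3⟩ : Iio x) ∈ {y : Iio x | (y : K) ∈ B} := by rw [h7]
    exact h8
  have h5 := mk_le_of_injective hinj
  rw [mk_set, h.card] at h5
  exact absurd (h5.trans hI) (not_le.2 hpow)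

/-- `a` is a regular cardinal: functions from smaller ordinals to `a` are bounded. -/
def RegPt (a : K) : Prop :=
  ∀ b < a, ∀ φ : K → K, (∀ x < b, φ x < a) → ∃ c < a, ∀ x < b, φ x < c

theorem Normal.exists_h (h : Normal κ U) (hpow : Order.succ κ < 2 ^ κ) :
    ∃ g : K → K, {a | a < g a ∧ RegPt (g a)} ∈ U ∧
      ∀ (I : Type) (f : I → K → K), #I ≤ Order.succ κ → (∀ i, LtU U (f i) g) →
        ∃ k, LtU U k g ∧ ∀ i, LtU U (f i) k := by
  classical
  have hne : Nonempty K := by
    obtain ⟨x, _⟩ := nonempty_of_mem (Filter.univ_mem : (Set.univ : Set K) ∈ U)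
    exact ⟨x⟩
  have hinf : ℵ₀ ≤ Order.succ κ := h.unc.le.trans (Order.le_succ κ)
  obtain ⟨g, hg, hmin⟩ := h.wf.has_min {g | ¬ Small κ U g} (h.exists_large hpow)
  have hsm : ∀ f, LtU U f g → Small κ U f := by
    intro f hf
    by_contra hcon
    exact hmin f hcon hf
  have hbd : ∀ (I : Type) (f : I → K → K), #I ≤ Order.succ κ → (∀ i, LtU U (f i) g) →
        ∃ k, LtU U k g ∧ ∀ i, LtU U (f i) k := by
    intro I f hI hf
    by_contra hcon
    push Not at hcon
    have h1 : ∀ i, ∃ (J : Type) (e : J → K → K), #J ≤ Order.succ κ ∧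
        ∀ k, LtU U k (f i) → ∃ j, EqU U k (e j) := fun i => hsm (f i) (hf i)
    choose J e hJ he using h1
    apply hg
    refine ⟨(Σ i, J i) ⊕ I, Sum.elim (fun x => e x.1 x.2) f, ?_, ?_⟩
    · rw [mk_sum]
      simp only [lift_id]
      refine add_le_of_le hinf ?_ hI
      rw [mk_sigma]
      refine (sum_le_mk_mul_iSup _).trans ?_
      exact (mul_le_mul' hI (ciSup_le' hJ)).trans (mul_eq_self hinf).le
    · intro k hk
      obtain ⟨i, hi⟩ := hcon k hk
      rcases ltU_or U k (f i) with h2 | h2 | h2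
      · obtain ⟨j, hj⟩ := he i k h2
        exact ⟨Sum.inl ⟨i, j⟩, hj⟩
      · exact ⟨Sum.inr i, h2⟩
      · exact absurd h2 hi
  refine ⟨g, ?_, hbd⟩
  have hid : {a | a < g a} ∈ U := by
    rcases ltU_or U id g with h1 | h1
    · exact h1
    · exfalso
      have h2 : {a | g a ≤ a} ∈ U := by
        rcases h1 with h1 | h1
        · exact Filter.mem_of_superset h1 fun x hx => (le_of_eq (Eq.symm hx) : g x ≤ x)
        · exact Filter.mem_of_superset h1 fun x hx => (le_of_lt hx : g x ≤ x)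
      apply hg
      refine ⟨K, fun c _ => c, by rw [h.card]; exact Order.le_succ κ, ?_⟩
      intro k hk
      exact h.regressive k (Filter.mem_of_superset (Filter.inter_mem hk h2)
        fun x hx => lt_of_lt_of_le hx.1 hx.2)
  rcases Ultrafilter.mem_or_compl_mem U {a | RegPt (g a)} with h1 | h1
  · exact Filter.mem_of_superset (Filter.inter_mem hid h1) fun x hx => ⟨hx.1, hx.2⟩
  · exfalso
    have h2 : ∀ a : K, ∃ (b : K) (φ : K → K), ¬ RegPt (g a) →
        b < g a ∧ (∀ x < b, φ x < g a) ∧ ∀ c < g a, ∃ x < b, c ≤ φ x := by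
      intro a
      by_cases ha : RegPt (g a)
      · exact ⟨a, id, fun h' => absurd ha h'⟩
      · have ha' := ha
        unfold RegPt at ha'
        push Not at ha'
        obtain ⟨b, hb, φ, h3, h4⟩ := ha'
        exact ⟨b, φ, fun _ => ⟨hb, h3, h4⟩⟩
    choose ρ φ hφ using h2
    have hρ : LtU U ρ g := Filter.mem_of_superset h1 fun a ha => (hφ a ha).1
    obtain ⟨I, f, hI, hf⟩ := hsm ρ hρ
    let ψ : I → K → K := fun i a => if f i a < ρ a then φ a (f i a) else ρ a
    obtain ⟨k, hk1, hk2⟩ := hbd I ψ hI (fun i => by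
      refine Filter.mem_of_superset h1 fun a ha => ?_
      change ψ i a < g a
      simp only [ψ]
      split_ifs with h3
      · exact (hφ a ha).2.1 _ h3
      · exact (hφ a ha).1)
    have h3 : ∀ a, ∃ x, ¬ RegPt (g a) → k a < g a → x < ρ a ∧ k a ≤ φ a x := by
      intro a
      by_cases ha : ¬ RegPt (g a) ∧ k a < g a
      · obtain ⟨x, hx1, hx2⟩ := (hφ a ha.1).2.2 (k a) ha.2
        exact ⟨x, fun _ _ => ⟨hx1, hx2⟩⟩
      · exact ⟨a, fun h' h'' => absurd ⟨h', h''⟩ ha⟩
    choose e he using h3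
    obtain ⟨i, hi⟩ := hf e (Filter.mem_of_superset (Filter.inter_mem h1 hk1)
      fun a ha => (he a ha.1 ha.2).1)
    obtain ⟨a, ⟨⟨ha1, ha2⟩, ha3⟩, ha4⟩ := nonempty_of_mem
      (h.inter (h.inter (h.inter h1 hk1) hi) (hk2 i))
    have h5 := he a ha1 ha2
    have h6 : e a = f i a := ha3
    have h7 : ψ i a < k a := ha4
    simp only [ψ] at h7
    rw [← h6, if_pos h5.1] at h7
    exact absurd h7 (not_lt.2 h5.2)

end

end Pool.Agent.V11248.Pk
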