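import Pool.Agent.V11248.Pk.Main

/-!
# The spectrum of the named directed set
-/

namespace Pool.Agent.V11248.Pk

open Cardinal Set Pool.Agent.Helper669.Forcing Pool.Agent.V11248.OS

section

variable {κ : Cardinal.{0}} {K : Type} [LinearOrder K] {U : Ultrafilter K} {h : K → K} {B : Set K}

/-- The ground model functions below `h`. -/
abbrev XX (h : K → K) : Type := {F : K → K // ∀ x, F x < h x}

/-- `F ≤ G` at all points of the generic sequence. -/
def W (F G : K → K) : Set (PC U B) := {p | (∀ x ∈ p.s, F x ≤ G x) ∧ ∀ x ∈ p.A, F x ≤ G x}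

theorem down_W (F G : K → K) : Down (W (U := U) (B := B) F G) := by
  rintro p ⟨h1, h2⟩ q ⟨r, h3, h4, h5⟩
  refine ⟨fun x hx => ?_, fun x hx => h2 x (h5 hx)⟩
  rw [h3] at hx
  rcases List.mem_append.1 hx with h | h
  · exact h1 x h
  · exact h2 x (h4 x h)

/-- The order of the named directed set. -/
def LeN (F G : XX h) : Set (PC U B) := {p | F = G ∨ (p ∈ W F.1 G.1 ∧ p ∈ fnot (W G.1 F.1))}

theorem down_LeN (F G : XX h) : Down (LeN (U := U) (B := B) F G) := by
  rintro p hp q hq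
  rcases hp with hp | ⟨h1, h2⟩
  · exact Or.inl hp
  · exact Or.inr ⟨down_W _ _ _ h1 _ hq, down_fnot _ _ h2 _ hq⟩

theorem W_of_LeN {F G : XX h} {p : PC U B} (hp : p ∈ LeN F G) : p ∈ W F.1 G.1 := by
  rcases hp with rfl | ⟨h1, _⟩
  · exact ⟨fun _ _ => le_rfl, fun _ _ => le_rfl⟩
  · exact h1

theorem LeN_of {F G : XX h} {p : PC U B} (h1 : ∀ x ∈ p.s, F.1 x ≤ G.1 x)
    (h2 : ∀ x ∈ p.A, F.1 x < G.1 x) : p ∈ LeN F G := by
  refine Or.inr ⟨⟨h1, fun x hx => (h2 x hx).le⟩, fun q hq h3 => ?_⟩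
  obtain ⟨x, hx⟩ := exists_point q
  obtain ⟨r, _, _, h5⟩ := hq
  exact absurd (h2 x (h5 hx)) (not_lt.2 (h3.2 x hx))

/-- forcing `meets` of a down-closed set at some extension -/
theorem exists_mem {N : Set (PC U B)} (hN : Down N) {p : PC U B} (hp : p ∈ meets N) :
    ∃ q ≤ p, q ∈ N := exists_of_meets hN hp

theorem exists_above (hd : HData κ U h B) (F G : XX h) :
    ∃ H : XX h, ∀ x, F.1 x < H.1 x ∧ G.1 x < H.1 x := by
  have h1 : ∀ x, ∃ c < h x, max (F.1 x) (G.1 x) < c := fun x =>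
    exists_between hd (max_lt (F.2 x) (G.2 x))
  choose H hH1 hH2 using h1
  exact ⟨⟨H, hH1⟩, fun x => ⟨lt_of_le_of_lt (le_max_left _ _) (hH2 x),
    lt_of_le_of_lt (le_max_right _ _) (hH2 x)⟩⟩

theorem directedOrder (hd : HData κ U h B) (p : PC U B) :
    p ∈ DirectedOrder (LeN (U := U) (B := B) (h := h)) := by
  refine ⟨?_, ?_, ?_, ?_⟩
  · intro F
    exact meets_of_mem (Or.inl rfl)
  · intro F G
    refine fimp_of fun q hq h1 => ?_
    obtain ⟨q1, hq1, h2⟩ := exists_mem (down_LeN F G) h1.1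
    obtain ⟨q2, hq2, h3⟩ := exists_mem (down_LeN G F) (down_meets _ _ h1.2 _ hq1)
    have h4 := down_LeN _ _ _ h2 _ hq2
    rcases h4 with h4 | ⟨h4, h5⟩
    · exact h4
    · exact absurd (W_of_LeN h3) (h5 q2 le_rfl)
  · intro F G H
    refine fimp_of fun q hq h1 => ?_
    intro q' hq'
    obtain ⟨q1, hq1, h2⟩ := exists_mem (down_LeN F G) (down_meets _ _ h1.1 _ hq')
    obtain ⟨q2, hq2, h3⟩ := exists_mem (down_LeN G H) (down_meets _ _ h1.2 _ (hq1.trans hq'))
    have h4 := down_LeN _ _ _ h2 _ hq2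
    refine ⟨q2, hq2.trans hq1, q2, ?_, le_rfl⟩
    rcases h3 with h3 | ⟨h3, h5⟩
    · rw [← h3]
      exact h4
    · have h6 := W_of_LeN h4
      refine Or.inr ⟨⟨fun x hx => (h6.1 x hx).trans (h3.1 x hx),
        fun x hx => (h6.2 x hx).trans (h3.2 x hx)⟩, fun r hr h7 => h5 r hr ?_⟩
      have h8 := down_W _ _ _ h6 _ hr
      exact ⟨fun x hx => (h7.1 x hx).trans (h8.1 x hx), fun x hx => (h7.2 x hx).trans (h8.2 x hx)⟩
  · intro F G
    obtain ⟨H, hH⟩ := exists_above hd F G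
    refine mem_fex_of_mem H (down_fand (down_meets _) (down_meets _)) ⟨?_, ?_⟩
    · exact meets_of_mem (LeN_of (fun x _ => (hH x).1.le) fun x _ => (hH x).1)
    · exact meets_of_mem (LeN_of (fun x _ => (hH x).2.le) fun x _ => (hH x).2)

theorem cofinalityOmega (hN : Normal κ U) (p : PC U B) :
    p ∈ fex fun g : ℕ → K → Set (PC U B) => fand (IsFun g)
    (fall fun a : K => fex fun n : ℕ => fex fun b : K =>
      fand (fground (a < b)) (meets (g n b))) := by
  refine mem_fex_of_mem Pt ?_ ⟨⟨?_, ?_⟩, ?_⟩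
  · exact down_fand (down_IsFun _) (down_fall fun _ => down_fex _)
  · intro n
    refine mem_fex.2 fun q _ => ?_
    obtain ⟨r, hr, hn⟩ := exists_length hN n q
    exact ⟨r, hr, r.s[n], meets_of_mem (List.getElem?_eq_getElem hn)⟩
  · intro n x y
    refine fimp_of fun q _ h1 => ?_
    obtain ⟨q1, hq1, h2⟩ := exists_mem (down_Pt n x) h1.1
    obtain ⟨q2, hq2, h3⟩ := exists_mem (down_Pt n y) (down_meets _ _ h1.2 _ hq1)
    have h4 := down_Pt _ _ _ h2 _ hq2
    have h5 : q2.s[n]? = some x := h4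
    have h6 : q2.s[n]? = some y := h3
    rw [h5] at h6
    change x = y
    simpa using h6
  · intro a
    refine mem_fex.2 fun q _ => ?_
    obtain ⟨x, hx1, hx2⟩ := nonempty_of_mem (Filter.inter_mem q.mem (hN.tail a))
    obtain ⟨r, hr, h1, _⟩ := exists_snoc hN q hx1
    refine ⟨r, hr, q.s.length, mem_fex_of_mem x (down_fand (down_fground _) (down_meets _))
      ⟨hx2, meets_of_mem ?_⟩⟩
    change r.s[q.s.length]? = some x
    rw [h1]
    simp

theorem staysRegular_lt (hN : Normal κ U) {ν : Cardinal.{0}} (hν : ν.IsRegular) (hνκ : ν < κ)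
    (p : PC U B) : p ∈ StaysRegular (PC U B) ν := by
  classical
  intro μ hμ R
  refine mem_fimp.2 fun p0 _ hp0 => ?_
  have hinf : ℵ₀ ≤ κ := hN.unc.le
  obtain ⟨q, hq, _, h1⟩ := decide_all hN (ι := μ.out × ν.ord.ToType) (by
    simp only [mk_prod, mk_out, mk_ord_toType, lift_id]
    exact mul_lt_of_lt hinf (hμ.trans hνκ) hνκ) (fun x => meets (R x.1 x.2))
    (fun _ => down_meets _) (fun _ => reg_meets _) p0
  have h2 : ∀ x, ∃ y, q ∈ meets (R x y) := by
    intro x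
    obtain ⟨r, hr, y, hy⟩ := IsFun.total (down_IsFun R _ hp0 _ hq) x
    rcases h1 (x, y) with h3 | h3
    · exact ⟨y, h3⟩
    · exact absurd hy (h3 r hr)
  choose y hy using h2
  have h3 : ∃ b : ν.ord.ToType, ∀ x, y x < b := by
    by_contra hcon
    push Not at hcon
    have hcof : IsCofinal (range y) := fun b => by
      obtain ⟨x, hx⟩ := hcon b
      exact ⟨y x, ⟨x, rfl⟩, hx⟩
    have h4 := Order.cof_le hcof
    rw [Ordinal.cof_toType, hν.cof_ord] at h4
    refine absurd (h4.trans mk_range_le) (not_le.2 ?_)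
    rw [mk_out]
    exact hμ
  obtain ⟨b, hb⟩ := h3
  refine ⟨q, hq, mem_fex_of_mem b (down_fall fun _ => down_fall fun _ => down_fimp _ _) ?_⟩
  intro x z
  refine fimp_of fun r hr h4 => ?_
  have : z = y x := IsFun.unique (down_IsFun R _ hp0 _ (hr.trans hq)) h4
    (down_meets _ _ (hy x) _ hr)
  rw [this]
  exact hb x

theorem card_list (hN : Normal κ U) : #(List K) ≤ κ := by
  refine (mk_list_le_max K).trans ?_
  rw [hN.card]
  exact max_le hN.unc.le le_rfl

theorem staysRegular_succ (hN : Normal κ U) (p : PC U B) :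
    p ∈ StaysRegular (PC U B) (Order.succ κ) := by
  classical
  intro μ hμ R
  refine mem_fimp.2 fun p0 _ hp0 => ?_
  have hinf : ℵ₀ ≤ κ := hN.unc.le
  have hreg : (Order.succ κ).IsRegular := isRegular_succ hinf
  have hne : Nonempty (Order.succ κ).ord.ToType := by
    refine mk_ne_zero_iff.1 ?_
    rw [mk_ord_toType]
    exact (Order.bot_lt_succ _).ne'
  have h1 : ∀ (x : μ.out) (t : List K), ∃ y, ∀ q ≤ p0, q.s = t → ∀ z, q ∈ meets (R x z) →
      z = y := by
    intro x t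
    by_cases hx : ∃ q ≤ p0, q.s = t ∧ ∃ z, q ∈ meets (R x z)
    · obtain ⟨q, hq, rfl, z, hz⟩ := hx
      refine ⟨z, fun q' hq' hs z' hz' => ?_⟩
      obtain ⟨r, hr1, hr2, _⟩ := compat hs
      exact IsFun.unique (down_IsFun R _ hp0 _ (hr1.trans hq')) (down_meets _ _ hz' _ hr1)
        (down_meets _ _ hz _ hr2)
    · exact ⟨Classical.arbitrary _, fun q hq hs z hz => absurd ⟨q, hq, hs, z, hz⟩ hx⟩
  choose y hy using h1
  have h3 : ∃ b : (Order.succ κ).ord.ToType, ∀ x : μ.out × List K, y x.1 x.2 < b := by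
    by_contra hcon
    push Not at hcon
    have hcof : IsCofinal (range fun x : μ.out × List K => y x.1 x.2) := fun b => by
      obtain ⟨x, hx⟩ := hcon b
      exact ⟨y x.1 x.2, ⟨x, rfl⟩, hx⟩
    have h4 := Order.cof_le hcof
    rw [Ordinal.cof_toType, hreg.cof_ord] at h4
    refine absurd (h4.trans mk_range_le) (not_le.2 (Order.lt_succ_of_le ?_))
    simp only [mk_prod, mk_out, lift_id]
    exact (mul_le_mul' (Order.le_of_lt_succ hμ) (card_list hN)).trans (mul_eq_self hinf).le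
  obtain ⟨b, hb⟩ := h3
  refine ⟨p0, le_rfl, mem_fex_of_mem b (down_fall fun _ => down_fall fun _ => down_fimp _ _) ?_⟩
  intro x z
  refine fimp_of fun r hr h4 => ?_
  have : z = y x r.s := hy x r.s r hr rfl z h4
  rw [this]
  exact hb (x, r.s)

/-- The members of the spectrum. -/
theorem exists_good {ν : Cardinal.{0}} {p : PC U B}
    (hp : p ∈ InSpectrum (LeN (U := U) (B := B) (h := h)) ν) :
    ∃ q ≤ p, ∃ f : XX h → ν.ord.ToType → Set (PC U B), q ∈ IsFun f ∧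
      ∀ i, ∀ q' ≤ q, ∃ q'' ≤ q', ∃ F : XX h, ∀ r ≤ q'', ∀ G : XX h, r ∈ LeN F G →
        ∀ j, r ∈ meets (f G j) → i ≤ j := by
  obtain ⟨q, hq, f, hf1, hf2⟩ := mem_fex.1 hp p le_rfl
  refine ⟨q, hq, f, hf1, fun i q' hq' => ?_⟩
  by_contra hcon
  push Not at hcon
  -- the set of all `F` with `f F < i` is cofinal
  let C : XX h → Set (PC U B) := fun F => {r | ∃ j < i, r ∈ meets (f F j)}
  have hC : ∀ F, Down (C F) := fun F r ⟨j, hj, h1⟩ r' hr' => ⟨j, hj, down_meets _ _ h1 _ hr'⟩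
  have hcof : q' ∈ CofinalIn LeN C := by
    intro F
    refine mem_fex.2 fun q1 hq1 => ?_
    obtain ⟨r, hr, G, h1, j, h2, h3⟩ := hcon q1 hq1 F
    exact ⟨r, hr, G, meets_of_mem ⟨j, h3, h2⟩, meets_of_mem h1⟩
  obtain ⟨q1, hq1, h1⟩ := mem_fimp.1 (hf2 C) q' hq' hcof
  obtain ⟨q2, hq2, F, j, h2, h3, h4⟩ : ∃ q2 ≤ q1, ∃ F : XX h, ∃ j, i ≤ j ∧
      q2 ∈ meets (C F) ∧ q2 ∈ meets (f F j) := by
    obtain ⟨q2, hq2, F, h5⟩ := mem_fex.1 (h1 i) q1 le_rfl
    obtain ⟨q3, hq3, j, h6, h7, h8⟩ := mem_fex.1 h5 q2 le_rfl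
    exact ⟨q3, hq3.trans hq2, F, j, h6, h7, h8⟩
  obtain ⟨q3, hq3, j', hj', h5⟩ := exists_mem (hC F) h3
  have h6 : j = j' := IsFun.unique (down_IsFun f _ hf1 _
    (hq3.trans (hq2.trans (hq1.trans hq')))) (down_meets _ _ h4 _ hq3) h5
  rw [h6] at h2
  exact absurd hj' (not_lt.2 h2)

end

end Pool.Agent.V11248.Pk
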